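import Mathlib
import Pool.Agent.Sq42_Def.ArithSets

/-!
# Arithmetical sets which are unions of classes are definable from successor and coprimality
-/

set_option autoImplicit false

namespace Pool.Agent.DSC.H4

open FirstOrder FirstOrder.Language Pool.Agent.SqDef

variable {L : FirstOrder.Language.{0, 0}} [L.Structure ℕ]

theorem E1_shift (σ : Sig L) {A : ℕ → Prop} (hA : E1 L A) (k : ℕ) : E1 L (fun u => A (u + k)) := by
  refine (((E1.at σ hA 2).and (E2.at σ (E2_shift σ k) 0 2)).ex σ 2).congr fun w hw => ?_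
  constructor
  · rintro ⟨x, _, h1, h2⟩
    simp at h1 h2
    rwa [h2] at h1
  · intro h
    refine ⟨w 0 + k, by have := hw 0; omega, ?_⟩
    simpa using h

theorem D1_small (σ : Sig L) (A : ℕ → Prop) (k : ℕ) : D1 L (fun y => y ≤ k ∧ A y) := by
  induction k with
  | zero =>
    have h1 : D L (fun v => v 0 = 0 ∧ A 0) := (D.isConst σ 0 0).and (D.const (A 0))
    refine h1.congr fun v => ?_
    constructor
    · rintro ⟨h, h'⟩
      rw [h]
      exact ⟨le_rfl, h'⟩
    · rintro ⟨h, h'⟩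
      have h0 : v 0 = 0 := by omega
      rw [h0] at h'
      exact ⟨h0, h'⟩
  | succ k ih =>
    have h1 : D L (fun v => v 0 = k + 1 ∧ A (k + 1)) :=
      (D.isConst σ 0 (k + 1)).and (D.const (A (k + 1)))
    refine (D.or ih h1).congr fun v => ?_
    constructor
    · rintro (⟨h, h'⟩ | ⟨h, h'⟩)
      · exact ⟨by omega, h'⟩
      · rw [h]
        exact ⟨le_rfl, h'⟩
    · rintro ⟨h, h'⟩
      rcases Nat.lt_or_ge k (v 0) with h2 | h2
      · have h0 : v 0 = k + 1 := by omega
        rw [h0] at h'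
        exact Or.inr ⟨h0, h'⟩
      · exact Or.inl ⟨h2, h'⟩

/-- COD -/
theorem cod (σ : Sig L) {A : Set ℕ}
    (hA : Set.Definable (∅ : Set ℕ) arithLang {v : Fin 1 → ℕ | v 0 ∈ A}) (k : ℕ)
    (hk : ∀ x y, k < x → k < y → Same (2 * k) (x - k) (y - k) → x ∈ A → y ∈ A) :
    Set.Definable (∅ : Set ℕ) L {v : Fin 1 → ℕ | v 0 ∈ A} := by
  have hE : E1 L (fun u => u + k ∈ A) := E1_shift σ (arith_E1 σ hA) k
  obtain ⟨QA, hQA, hQA'⟩ := E1.toD σ hE
  obtain ⟨QS, hQS, hQS'⟩ := exists_same σ (2 * k)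
  have hB : D1 L (fun u => ∃ c, IsCode c ∧ QS c u ∧ QA c) := by
    have h1 : D L (fun v => IsCode (v 1) ∧ QS (v 1) (v 0) ∧ QA (v 1)) :=
      ((D1_isCode σ).at σ 1 0).and ((hQS.at σ 1 0 0 0).and (hQA.at σ 1 0))
    refine (h1.ex 1).congr fun v => ?_
    simp
  have hB' : ∀ u, 1 ≤ u → ((∃ c, IsCode c ∧ QS c u ∧ QA c) ↔ u + k ∈ A) := by
    intro u hu
    constructor
    · rintro ⟨c, ⟨a, ha, rfl⟩, h1, h2⟩
      rw [hQS' a u ha] at h1
      rw [hQA' a ha] at h2
      refine hk (a + k) (u + k) (by omega) (by omega) ?_ h2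
      rwa [Nat.add_sub_cancel, Nat.add_sub_cancel]
    · intro h
      refine ⟨cd u, ⟨u, hu, rfl⟩, ?_, (hQA' u hu).2 h⟩
      rw [hQS' u u hu]
      exact fun j _ p _ => Iff.rfl
  have h1 : D L (fun v => v 0 = v 1 + k ∧ ¬ v 1 = 0 ∧ ∃ c, IsCode c ∧ QS c (v 1) ∧ QA c) := by
    have h2 : D L (fun v => v 0 = v 1 + k) :=
      (D2.at σ (R := fun x y => x = y) (D.eq 0 1) 0 0 1 k).congr fun v => by simp
    refine h2.and ((D.isConst σ 1 0).not.and ((hB.at σ 1 0).congr fun v => ?_))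
    simp
  have h3 : D L (fun v => v 0 ≤ k ∧ v 0 ∈ A) := D1_small σ (fun y => y ∈ A) k
  have h4 : D1 L (fun y => y ∈ A) := by
    refine ((h1.ex 1).or h3).congr fun v => ?_
    constructor
    · rintro (⟨u, hu⟩ | h)
      · simp only [ne_eq, zero_ne_one, not_false_eq_true, Function.update_of_ne,
          Function.update_self] at hu
        obtain ⟨h5, h6, h7⟩ := hu
        rw [h5]
        exact (hB' u (by omega)).1 h7
      · exact h.2
    · intro h
      rcases Nat.lt_or_ge k (v 0) with h2 | h2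
      · left
        refine ⟨v 0 - k, ?_⟩
        simp only [ne_eq, zero_ne_one, not_false_eq_true, Function.update_of_ne,
          Function.update_self]
        refine ⟨by omega, by omega, (hB' (v 0 - k) (by omega)).2 ?_⟩
        rwa [Nat.sub_add_cancel h2.le]
      · exact Or.inr ⟨h2, h⟩
  exact D1.definable h4

end Pool.Agent.DSC.H4
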