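import Mathlib
import Pool.Agent.Helper2_SQR.Def
import Pool.Agent.Helper60_DSC.Defs

/-!
# Arithmetical relations invariant under local indistinguishability are definable
-/

set_option autoImplicit false

namespace Pool.Agent.DSC.H4

open FirstOrder FirstOrder.Language Pool.Agent.SqDef Pool.Agent.SQR Pool.Agent.DSC

variable {L : FirstOrder.Language.{0, 0}} [L.Structure ℕ]

theorem D_allf {ι : Type} (s : Finset ι) (P : ι → (ℕ → ℕ) → Prop) (h : ∀ i ∈ s, D L (P i)) :
    D L (fun v => ∀ i ∈ s, P i v) := by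
  classical
  induction s using Finset.induction_on with
  | empty => exact (D.const True).congr fun v => by simp
  | insert a s ha ih =>
    refine ((h a (Finset.mem_insert_self a s)).and
      (ih fun i hi => h i (Finset.mem_insert_of_mem hi))).congr fun v => ?_
    simp

theorem D_exf {ι : Type} (s : Finset ι) (P : ι → (ℕ → ℕ) → Prop) (h : ∀ i ∈ s, D L (P i)) :
    D L (fun v => ∃ i ∈ s, P i v) := by
  refine (D_allf s (fun i v => ¬ P i v) (fun i hi => (h i hi).not)).not.congr fun v => ?_
  push Not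
  rfl

theorem same_iff {K a u : ℕ} (ha : 1 ≤ a) (hu : 1 ≤ u) :
    Same (2 * K) a u ↔ Twn K (a + K) (u + K) := by
  constructor
  · intro h
    refine ⟨by omega, by omega, fun j hj => ⟨?_, ?_⟩⟩
    · ext p
      rw [Nat.mem_primeFactors, Nat.mem_primeFactors]
      have h1 := h (K + j) (by omega) p
      rw [← add_assoc, ← add_assoc] at h1
      constructor
      · rintro ⟨h2, h3, _⟩
        exact ⟨h2, (h1 h2).1 h3, by omega⟩
      · rintro ⟨h2, h3, _⟩
        exact ⟨h2, (h1 h2).2 h3, by omega⟩
    · ext p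
      rw [Nat.mem_primeFactors, Nat.mem_primeFactors]
      have h1 := h (K - j) (by omega) p
      have e1 : a + (K - j) = a + K - j := by omega
      have e2 : u + (K - j) = u + K - j := by omega
      rw [e1, e2] at h1
      constructor
      · rintro ⟨h2, h3, _⟩
        exact ⟨h2, (h1 h2).1 h3, by omega⟩
      · rintro ⟨h2, h3, _⟩
        exact ⟨h2, (h1 h2).2 h3, by omega⟩
  · rintro ⟨_, _, h⟩ j hj p hp
    rcases Nat.lt_or_ge K j with h1 | h1
    · have h2 := (h (j - K) (by omega)).1
      have e1 : a + K + (j - K) = a + j := by omega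
      have e2 : u + K + (j - K) = u + j := by omega
      rw [e1, e2] at h2
      have h3 := Finset.ext_iff.1 h2 p
      rw [Nat.mem_primeFactors, Nat.mem_primeFactors] at h3
      constructor
      · intro h4
        exact (h3.1 ⟨hp, h4, by omega⟩).2.1
      · intro h4
        exact (h3.2 ⟨hp, h4, by omega⟩).2.1
    · have h2 := (h (K - j) (by omega)).2
      have e1 : a + K - (K - j) = a + j := by omega
      have e2 : u + K - (K - j) = u + j := by omega
      rw [e1, e2] at h2
      have h3 := Finset.ext_iff.1 h2 p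
      rw [Nat.mem_primeFactors, Nat.mem_primeFactors] at h3
      constructor
      · intro h4
        exact (h3.1 ⟨hp, h4, by omega⟩).2.1
      · intro h4
        exact (h3.2 ⟨hp, h4, by omega⟩).2.1

theorem exists_codeQ (σ : Sig L) (K : ℕ) : ∃ Q : ℕ → ℕ → Prop, D2 L Q ∧
    ∀ c y, Q c y ↔ ∃ a, c = cd (a + 1) ∧ (a = y ∨ Twn K a y) := by
  obtain ⟨QS, hQS, hQS'⟩ := exists_same σ (2 * K)
  obtain ⟨T, hT, hT'⟩ := E2.toD σ (E2_shift σ (K + 1))
  -- 0 = c, 1 = y, 2 = u, 3 = c'
  refine ⟨fun c y => (∃ u c', y = u + K ∧ ¬ u = 0 ∧ IsCode c' ∧ QS c' u ∧ IsCode c ∧ T c' c) ∨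
    ∃ m ∈ Finset.range (K + 1), y = m ∧ c = cd (m + 1), ?_, ?_⟩
  · have h1 : D L (fun v => v 1 = v 2 + K) :=
      D2.at σ (R := fun x y => x = y) (D.eq 0 1) 1 0 2 K
    have h2 : D L (fun v => ∃ u c', v 1 = u + K ∧ ¬ u = 0 ∧ IsCode c' ∧ QS c' u ∧
        IsCode (v 0) ∧ T c' (v 0)) := by
      refine (((h1.and ((D.isConst σ 2 0).not.and (((D1_isCode σ).at σ 3 0).and
        ((hQS.at σ 3 0 2 0).and (((D1_isCode σ).at σ 0 0).and
          (hT.at σ 3 0 0 0)))))).ex 3).ex 2).congr fun v => ?_
      simp
    exact h2.or (D_exf _ _ fun m _ => (D.isConst σ 1 m).and (D.isConst σ 0 (cd (m + 1))))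
  · intro c y
    constructor
    · rintro (⟨u, c', h1, h2, ⟨a, ha, rfl⟩, h3, ⟨b, hb, rfl⟩, h4⟩ | ⟨m, _, h1, h2⟩)
      · rw [hT' a b ha hb] at h4
        rw [hQS' a u ha] at h3
        refine ⟨a + K, ?_, Or.inr ?_⟩
        · rw [h4]
          rfl
        · rw [h1]
          exact (same_iff ha (by omega)).1 h3
      · exact ⟨m, h2, Or.inl h1.symm⟩
    · rintro ⟨a, rfl, h⟩
      rcases Nat.lt_or_ge K y with hy | hy
      · left
        have h1 : Twn K a y := by
          rcases h with h | h
          · rw [h]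
            exact ⟨hy, hy, fun j _ => ⟨rfl, rfl⟩⟩
          · exact h
        have hKa := h1.1
        refine ⟨y - K, cd (a - K), by omega, by omega, ⟨a - K, by omega, rfl⟩, ?_,
          ⟨a + 1, by omega, rfl⟩, ?_⟩
        · rw [hQS' _ _ (by omega), same_iff (by omega) (by omega), Nat.sub_add_cancel hKa.le,
            Nat.sub_add_cancel hy.le]
          exact h1
        · rw [hT' _ _ (by omega) (by omega)]
          omega
      · right
        rcases h with h | h
        · exact ⟨y, Finset.mem_range.2 (by omega), rfl, by rw [h]⟩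
        · exact absurd h.2.1 (by omega)

/-- COD for relations of any arity. -/
theorem codr (σ : Sig L) (r K : ℕ) (R : Set (Fin r → ℕ))
    (hR : Set.Definable (∅ : Set ℕ) arithLang R)
    (hK : ∀ x ∈ R, ∀ y, Eqv K x y → y ∈ R) : Set.Definable (∅ : Set ℕ) L R := by
  obtain ⟨Q, hQ, hQ'⟩ := exists_codeQ σ K
  obtain ⟨P, hP, hP'⟩ := arith_EDr σ hR
  have hTt : ∀ t : ℕ, ∃ T : ℕ → ℕ → Prop, D2 L T ∧
      ∀ a b, 1 ≤ a → 1 ≤ b → (T (cd a) (cd b) ↔ b = a + t) := fun t => E2.toD σ (E2_shift σ t)
  choose T hT hT' using hTt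
  -- places: `v i` for `i < r`, codes at `r + i`, the constant 1 at `2 r`
  have h1 : D L (fun v => ∀ i ∈ (Finset.univ : Finset (Fin r)), Q (v (r + i)) (v i)) :=
    D_allf _ _ fun i _ => (hQ.at σ (r + i) 0 i 0).congr fun v => Iff.rfl
  have h2 : D L (fun v => ∀ q ∈ (Finset.univ : Finset (Fin r × Fin r × Fin (K + 1))),
      (v q.1 + q.2.2 = v q.2.1 ↔ T q.2.2 (v (r + q.1)) (v (r + q.2.1)))) :=
    D_allf _ _ fun q _ => ((D2.at σ (R := fun x y => x = y) (D.eq 0 1) q.1 q.2.2 q.2.1 0).iff
      ((hT q.2.2).at σ (r + q.1) 0 (r + q.2.1) 0)).congr fun v => Iff.rfl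
  have h3 : D L (fun v => P (fun n => v (if n < r then r + n else 2 * r) + 0)) :=
    hP.sub σ (fun n => if n < r then r + n else 2 * r) (fun _ => 0)
  have h4 := ((D_exs r r ((h1.and (h2.and h3)).setc σ (2 * r) 1)))
  refine D_definable r h4 _ fun v => ?_
  have key : ∀ x : Fin r → ℕ,
      ((∀ i ∈ (Finset.univ : Finset (Fin r)), Q (Function.update (blk r r x v) (2 * r) 1 (r + i))
        (Function.update (blk r r x v) (2 * r) 1 i)) ∧
      (∀ q ∈ (Finset.univ : Finset (Fin r × Fin r × Fin (K + 1))),
        (Function.update (blk r r x v) (2 * r) 1 q.1 + q.2.2 =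
          Function.update (blk r r x v) (2 * r) 1 q.2.1 ↔
          T q.2.2 (Function.update (blk r r x v) (2 * r) 1 (r + q.1))
            (Function.update (blk r r x v) (2 * r) 1 (r + q.2.1)))) ∧
      P (fun n => Function.update (blk r r x v) (2 * r) 1 (if n < r then r + n else 2 * r) + 0)) ↔
      ((∀ i : Fin r, Q (x i) (v i)) ∧
        (∀ (i j : Fin r) (t : Fin (K + 1)), (v i + t = v j ↔ T t (x i) (x j))) ∧
        P (fun n => if h : n < r then x ⟨n, h⟩ else 1)) := by
    intro x
    have e1 : ∀ i : Fin r, Function.update (blk r r x v) (2 * r) 1 i = v i := by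
      intro i
      have := i.2
      rw [Function.update_of_ne (by omega), blk, dif_neg (by omega)]
    have e2 : ∀ i : Fin r, Function.update (blk r r x v) (2 * r) 1 (r + i) = x i := by
      intro i
      have := i.2
      rw [Function.update_of_ne (by omega), blk, dif_pos (by omega)]
      congr 1
      ext
      simp
    have e3 : (fun n => Function.update (blk r r x v) (2 * r) 1
        (if n < r then r + n else 2 * r) + 0) = (fun n => if h : n < r then x ⟨n, h⟩ else 1) := by
      funext n
      by_cases hn : n < r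
      · rw [if_pos hn, dif_pos hn, add_zero]
        exact e2 ⟨n, hn⟩
      · rw [if_neg hn, dif_neg hn, Function.update_self]
    simp only [e1, e2, e3, Finset.mem_univ, true_imp_iff, Prod.forall]
  constructor
  · rintro ⟨x, hx⟩
    obtain ⟨g1, g2, g3⟩ := (key x).1 hx
    have g4 : ∀ i : Fin r, ∃ a, x i = cd (a + 1) ∧ (a = v i ∨ Twn K a (v i)) :=
      fun i => (hQ' _ _).1 (g1 i)
    choose a ha ha' using g4
    have g5 : (fun n => if h : n < r then x ⟨n, h⟩ else 1) =
        (fun n => cd ((fun n => if h : n < r then a ⟨n, h⟩ + 1 else 1) n)) := by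
      funext n
      by_cases hn : n < r
      · simp only [dif_pos hn]
        exact ha ⟨n, hn⟩
      · simp only [dif_neg hn]
        rfl
    rw [g5, hP' _ (fun n => by split_ifs <;> omega)] at g3
    have g6 : (fun i : Fin r => (fun n => if h : n < r then a ⟨n, h⟩ + 1 else 1) (i : ℕ) - 1) =
        a := by
      funext i
      simp
    rw [g6] at g3
    refine hK a g3 _ ⟨ha', fun i j t ht => ?_⟩
    have g7 := g2 i j ⟨t, by omega⟩
    rw [ha i, ha j, hT' _ _ _ (by omega) (by omega)] at g7
    simp only at g7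
    constructor
    · intro h
      exact g7.2 (by omega)
    · intro h
      have := g7.1 h
      omega
  · intro hv
    refine ⟨fun i => cd (v i + 1), (key _).2 ⟨fun i => (hQ' _ _).2 ⟨v i, rfl, Or.inl rfl⟩,
      fun i j t => ?_, ?_⟩⟩
    · rw [hT' _ _ _ (by omega) (by omega)]
      omega
    · have g5 : (fun n => if h : n < r then (fun i : Fin r => cd (v i + 1)) ⟨n, h⟩ else 1) =
          (fun n => cd ((fun n => if n < r then v n + 1 else 1) n)) := by
        funext n
        by_cases hn : n < r
        · simp only [dif_pos hn, if_pos hn]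
        · simp only [dif_neg hn, if_neg hn]
          rfl
      rw [g5, hP' _ (fun n => by split_ifs <;> omega)]
      have g6 : (fun i : Fin r => (fun n => if n < r then v n + 1 else 1) (i : ℕ) - 1) =
          (fun i : Fin r => v i) := by
        funext i
        simp
      change (fun i : Fin r => (fun n => if n < r then v n + 1 else 1) (i : ℕ) - 1) ∈ R
      rw [g6]
      exact hv

end Pool.Agent.DSC.H4
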